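import Pool.Agent.helper27.SY.Spec
import Pool.Agent.helper61.SX.STT

/-!
# Module WSTT of project sy: (MP_5628fe_nt)

One step of the tables, for sieve weights. The proof is the one of `STT` (Pool/Agent/helper61/SX).
-/

set_option autoImplicit false

open Finset ArithmeticFunction

namespace Pool.Agent.SY

open Pool.Agent.SX Pool.Agent.helper85.BVP

/-- Module WSTT. -/
theorem WSTT (hWMB : WMB_stmt) (hWSTP : WSTP_stmt) (hGOS : GOS_stmt) : WSTT_stmt := by
  intro n h h' u a0 a L U L' U' E h28 hhh hau ha ha0 hE hT hL hU
  obtain ⟨hTL, hTU⟩ := hT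
  obtain ⟨hmonL', hmonU', htriv', -, -⟩ := hWMB
  have hmonL := hmonL' h'
  have hmonU := hmonU' h'
  have htriv := htriv' h'
  have hsub : ∀ i k : ℕ, i * u - k * h' = (i - k * a) * u := by
    intro i k
    rw [hau, Nat.sub_mul, Nat.mul_assoc]
  have hle : ∀ i r : ℕ, (r + 1) * a ≤ i → r * h' ≤ i * u := by
    intro i r hr
    rw [hau, ← Nat.mul_assoc]
    refine Nat.mul_le_mul_right u (le_trans ?_ hr)
    exact Nat.mul_le_mul_right a (Nat.le_succ r)
  constructor
  · intro i hi
    have h1 := STT_allB _ n hL i hi
    rw [Bool.or_eq_true] at h1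
    rcases h1 with h1 | h1
    · have h2 : 1099511627776 ≤ dig L' i := Nat.le_of_ble_eq_true h1
      refine hmonL (i * u) (i * u) 1 _ le_rfl ?_ (htriv _)
      have h3 : (1099511627776 : ℝ) ≤ (dig L' i : ℝ) := by exact_mod_cast h2
      rw [le_div_iff₀ (by positivity)]
      have h4 : (2 : ℝ) ^ 40 = 1099511627776 := by norm_num
      rw [h4, one_mul]
      exact h3
    · rw [Bool.and_eq_true] at h1
      obtain ⟨h2, h3⟩ := h1
      have h2' : 2 * a ≤ i := Nat.le_of_ble_eq_true h2
      obtain ⟨r, hr10, hpar, hra, hsum⟩ :=
        hGOS E a _ 10 L U false 0 i 0 ha (by omega) h3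
      have hodd : Odd r := by
        rw [← Nat.not_even_iff_odd]
        intro hev
        exact Bool.false_ne_true (hpar.mpr hev)
      simp only [Nat.zero_add] at hsum
      have hkey := (hWSTP h h' (i * u) r
        (fun k => ((dig (if Even k then L else U) (i - k * a) : ℕ) : ℝ) / 2 ^ 40)
        h28 hhh (hle i r hra)).1 hodd ?_
      · refine hmonL (i * u) (i * u) _ _ le_rfl ?_ hkey
        exact STT_val h h' E hE r hr10 (fun k => dig (if Even k then L else U) (i - k * a)) _ hsum
      · intro k hk
        have hka : (k + 1) * a ≤ i := le_trans (Nat.mul_le_mul_right a (by omega)) hra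
        have hka' : k * a + a ≤ i := by
          have := Nat.succ_mul k a
          rw [Nat.succ_eq_add_one] at this
          omega
        constructor
        · intro hev
          simp only [if_pos hev]
          rw [hsub]
          exact hTL _ (by omega)
        · intro hod
          simp only [if_neg (Nat.not_even_iff_odd.mpr hod)]
          rw [hsub]
          exact hTU _ (by omega) (by omega)
  · intro i hai hi
    have h1 := STT_allB _ n hU i hi
    rw [Bool.or_eq_true] at h1
    have h3 : go E a (dig U' i * 17592186044416) 10 U L true 0 i 0 = true := by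
      rcases h1 with h1 | h1
      · exfalso
        have h2 : i < a := by
          have h4 : Nat.ble (i + 1) a = true := h1
          exact Nat.le_of_ble_eq_true h4
        omega
      · exact h1
    obtain ⟨r, hr10, hpar, hra, hsum⟩ :=
      hGOS E a _ 10 U L true 0 i 0 ha hai h3
    have hev : Even r := hpar.mp rfl
    simp only [Nat.zero_add] at hsum
    have hkey := (hWSTP h h' (i * u) r
      (fun k => ((dig (if Even k then U else L) (i - k * a) : ℕ) : ℝ) / 2 ^ 40)
      h28 hhh (hle i r hra)).2 hev ?_
    · refine hmonU (i * u) (i * u) _ _ le_rfl ?_ hkey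
      exact STT_val h h' E hE r hr10 (fun k => dig (if Even k then U else L) (i - k * a)) _ hsum
    · intro k hk
      have hka : (k + 1) * a ≤ i := le_trans (Nat.mul_le_mul_right a (by omega)) hra
      have hka' : k * a + a ≤ i := by
        have := Nat.succ_mul k a
        rw [Nat.succ_eq_add_one] at this
        omega
      constructor
      · intro hev
        simp only [if_pos hev]
        rw [hsub]
        exact hTU _ (by omega) (by omega)
      · intro hod
        simp only [if_neg (Nat.not_even_iff_odd.mpr hod)]
        rw [hsub]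
        exact hTL _ (by omega)

end Pool.Agent.SY
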